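import Pool.Agent.helper73.SHL.Spec

/-! Row CSA of project SHL (MP_a2a22c_al): the rational algebra generated by a `p`-adic
representation is a central simple algebra of dimension `n²`. -/

set_option autoImplicit false

namespace Pool.Agent.SHL

open Matrix Module Pool.Agent.PR

/-! ### Spans -/

theorem CSA_span (R : Type) {M Λ : Type} [CommRing R] [Ring M] [Algebra R M] [Group Λ] (r : Λ → M)
    (h1 : r 1 = 1) (hm : ∀ l m, r (l * m) = r l * r m) :
    Subalgebra.toSubmodule (Algebra.adjoin R (Set.range r)) = Submodule.span R (Set.range r) := by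
  rw [Algebra.adjoin_eq_span]
  congr 1
  apply Set.Subset.antisymm
  · intro x hx
    induction hx using Submonoid.closure_induction with
    | mem x h => exact h
    | one => exact ⟨1, h1⟩
    | mul x y _ _ hx hy =>
      obtain ⟨l, rfl⟩ := hx
      obtain ⟨m, rfl⟩ := hy
      exact ⟨l * m, hm l m⟩
  · exact Submonoid.subset_closure

section core

variable {n : ℕ} {F : Type} [Field F] {Λ : Type} [Group Λ] (r : Λ → Matrix (Fin n) (Fin n) F)

theorem CSA_tr {R : Type} [CommRing R] [Algebra R F] (hm : ∀ l m, r (l * m) = r l * r m)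
    (htr : ∀ l, ∃ t : ℤ, (r l).trace = (t : F)) (x : Matrix (Fin n) (Fin n) F)
    (hx : x ∈ Submodule.span R (Set.range r)) (l : Λ) :
    ∃ t : R, (x * r l).trace = algebraMap R F t := by
  induction hx using Submodule.span_induction with
  | mem x h =>
    obtain ⟨l', rfl⟩ := h
    obtain ⟨t, ht⟩ := htr (l' * l)
    refine ⟨(t : R), ?_⟩
    rw [← hm, ht, map_intCast]
  | zero => exact ⟨0, by simp⟩
  | add x y _ _ hx hy =>
    obtain ⟨s, hs⟩ := hx
    obtain ⟨t, ht⟩ := hy
    exact ⟨s + t, by rw [add_mul, trace_add, hs, ht, map_add]⟩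
  | smul c x _ hx =>
    obtain ⟨s, hs⟩ := hx
    refine ⟨c * s, ?_⟩
    rw [smul_mul_assoc, trace_smul, hs, map_mul, Algebra.smul_def]

/-- The trace pairing with a family of matrices. -/
noncomputable def CSA_phi {ι : Type} (b : ι → Matrix (Fin n) (Fin n) F) :
    Matrix (Fin n) (Fin n) F →ₗ[F] (ι → F) :=
  LinearMap.pi fun i => (Matrix.traceLinearMap (Fin n) F F).comp (LinearMap.mulRight F (b i))

theorem CSA_phi_apply {ι : Type} (b : ι → Matrix (Fin n) (Fin n) F) (x : Matrix (Fin n) (Fin n) F)
    (i : ι) : CSA_phi b x i = (x * b i).trace := rfl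

theorem CSA_phi_inj {ι : Type} (b : ι → Matrix (Fin n) (Fin n) F)
    (hb : Submodule.span F (Set.range b) = ⊤) : Function.Injective (CSA_phi b) := by
  rw [← LinearMap.ker_eq_bot, LinearMap.ker_eq_bot']
  intro x hx
  have h1 : ∀ i, (x * b i).trace = 0 := fun i => by
    rw [← CSA_phi_apply, hx]
    rfl
  rw [Matrix.ext_iff_trace_mul_right]
  intro y
  rw [zero_mul, trace_zero]
  have hy : y ∈ Submodule.span F (Set.range b) := by
    rw [hb]
    trivial
  induction hy using Submodule.span_induction with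
  | mem y h =>
    obtain ⟨i, rfl⟩ := h
    exact h1 i
  | zero => simp
  | add y z _ _ hy hz => rw [mul_add, trace_add, hy, hz, add_zero]
  | smul c y _ hy => rw [mul_smul_comm, trace_smul, hy, smul_zero]

omit [Group Λ] in
theorem CSA_basis (hsp : Submodule.span F (Set.range r) = ⊤) :
    ∃ l : Fin (n * n) → Λ, LinearIndependent F (fun i => r (l i)) ∧
      Submodule.span F (Set.range fun i => r (l i)) = ⊤ := by
  obtain ⟨B, hB, hBs, hBl⟩ := exists_linearIndependent F (Set.range r)
  rw [hsp] at hBs
  have hfin : B.Finite := hBl.setFinite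
  have : Fintype B := hfin.fintype
  let bas : Module.Basis B F (Matrix (Fin n) (Fin n) F) :=
    Module.Basis.mk hBl (by rw [Subtype.range_coe]; exact hBs.ge)
  have hcard : Fintype.card B = n * n := by
    have h1 := Module.finrank_eq_card_basis bas
    rw [Module.finrank_matrix] at h1
    simpa using h1.symm
  let e : Fin (n * n) ≃ B := (Fintype.equivFinOfCardEq hcard).symm
  have hex : ∀ b : B, ∃ l, r l = b := fun b => hB b.2
  choose g hg using hex
  have heq : (fun i => r (g (e i))) = (fun i => ((e i : B) : Matrix (Fin n) (Fin n) F)) :=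
    funext fun i => hg (e i)
  refine ⟨fun i => g (e i), ?_, ?_⟩
  · rw [heq]
    exact hBl.comp e e.injective
  · rw [heq]
    have : Set.range (fun i => ((e i : B) : Matrix (Fin n) (Fin n) F)) = B := by
      ext x
      constructor
      · rintro ⟨i, rfl⟩
        exact (e i).2
      · intro hx
        exact ⟨e.symm ⟨x, hx⟩, by simp⟩
    rw [this, hBs]

end core

section rat

variable {n : ℕ} {F : Type} [Field F] [Algebra ℚ F] {Λ : Type} [Group Λ]
  (r : Λ → Matrix (Fin n) (Fin n) F)

/-- Dimension of the rational span. -/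
theorem CSA_dim (hm : ∀ l m, r (l * m) = r l * r m)
    (htr : ∀ l, ∃ t : ℤ, (r l).trace = (t : F))
    (hsp : Submodule.span F (Set.range r) = ⊤) :
    FiniteDimensional ℚ (Submodule.span ℚ (Set.range r)) ∧
      finrank ℚ (Submodule.span ℚ (Set.range r)) = n * n := by
  obtain ⟨l, hli, hls⟩ := CSA_basis r hsp
  set N := Submodule.span ℚ (Set.range r) with hN
  let b : Fin (n * n) → Matrix (Fin n) (Fin n) F := fun i => r (l i)
  let ψ : N →ₗ[ℚ] (Fin (n * n) → F) := ((CSA_phi b).restrictScalars ℚ).comp N.subtype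
  let ι : (Fin (n * n) → ℚ) →ₗ[ℚ] (Fin (n * n) → F) :=
    (Algebra.linearMap ℚ F).compLeft (Fin (n * n))
  have hψ : ∀ x : N, ψ x ∈ LinearMap.range ι := by
    intro x
    have h1 : ∀ i, ∃ t : ℚ, (x.1 * r (l i)).trace = algebraMap ℚ F t :=
      fun i => CSA_tr r hm htr x.1 x.2 (l i)
    choose t ht using h1
    refine ⟨t, ?_⟩
    ext i
    exact (ht i).symm
  let ψ' : N →ₗ[ℚ] LinearMap.range ι := ψ.codRestrict _ hψ
  have hinj : Function.Injective ψ' := by
    intro x y hxy
    have h2 : ψ x = ψ y := congrArg Subtype.val hxy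
    exact Subtype.ext (CSA_phi_inj b hls h2)
  have hfd : FiniteDimensional ℚ N := Module.Finite.of_injective ψ' hinj
  refine ⟨hfd, le_antisymm ?_ ?_⟩
  · calc finrank ℚ N ≤ finrank ℚ (LinearMap.range ι) :=
          LinearMap.finrank_le_finrank_of_injective hinj
      _ ≤ finrank ℚ (Fin (n * n) → ℚ) := LinearMap.finrank_range_le ι
      _ = n * n := by simp
  · have h3 : LinearIndependent ℚ (fun i => (⟨r (l i), Submodule.subset_span ⟨l i, rfl⟩⟩ : N)) := by
      have h4 : LinearIndependent ℚ (fun i => r (l i)) :=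
        hli.restrict_scalars (by
          intro a c hac
          simp only [Algebra.smul_def, mul_one] at hac
          exact (algebraMap ℚ F).injective hac)
      exact LinearIndependent.of_comp N.subtype h4
    have h5 := h3.fintype_card_le_finrank
    simpa using h5

/-- A rational subspace of the rational span which spans everything over `F` is everything. -/
theorem CSA_full (hm : ∀ l m, r (l * m) = r l * r m)
    (htr : ∀ l, ∃ t : ℤ, (r l).trace = (t : F))
    (hsp : Submodule.span F (Set.range r) = ⊤) (I : Submodule ℚ (Matrix (Fin n) (Fin n) F))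
    (hI : I ≤ Submodule.span ℚ (Set.range r))
    (hIs : Submodule.span F (I : Set (Matrix (Fin n) (Fin n) F)) = ⊤) :
    I = Submodule.span ℚ (Set.range r) := by
  obtain ⟨hfd, hdim⟩ := CSA_dim r hm htr hsp
  obtain ⟨B, hB, hBs, hBl⟩ := exists_linearIndependent F (I : Set (Matrix (Fin n) (Fin n) F))
  rw [hIs] at hBs
  have hfin : B.Finite := hBl.setFinite
  have : Fintype B := hfin.fintype
  let bas : Module.Basis B F (Matrix (Fin n) (Fin n) F) :=
    Module.Basis.mk hBl (by rw [Subtype.range_coe]; exact hBs.ge)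
  have hcard : Fintype.card B = n * n := by
    have h1 := Module.finrank_eq_card_basis bas
    rw [Module.finrank_matrix] at h1
    simpa using h1.symm
  have hfdI : FiniteDimensional ℚ I := Submodule.finiteDimensional_of_le hI
  have h3 : LinearIndependent ℚ (fun x : B => (⟨x.1, hB x.2⟩ : I)) := by
    have h4 : LinearIndependent ℚ (fun x : B => x.1) :=
      hBl.restrict_scalars (by
        intro a c hac
        simp only [Algebra.smul_def, mul_one] at hac
        exact (algebraMap ℚ F).injective hac)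
    exact LinearIndependent.of_comp I.subtype h4
  have h5 := h3.fintype_card_le_finrank
  rw [hcard, ← hdim] at h5
  exact Submodule.eq_of_le_of_finrank_le hI h5

theorem CSA_core (hn : 1 ≤ n) (h1 : r 1 = 1) (hm : ∀ l m, r (l * m) = r l * r m)
    (htr : ∀ l, ∃ t : ℤ, (r l).trace = (t : F))
    (hsp : Submodule.span F (Set.range r) = ⊤) :
    FiniteDimensional ℚ (Algebra.adjoin ℚ (Set.range r)) ∧
    finrank ℚ (Algebra.adjoin ℚ (Set.range r)) = n * n ∧
    IsSimpleRing (Algebra.adjoin ℚ (Set.range r)) ∧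
    Algebra.IsCentral ℚ (Algebra.adjoin ℚ (Set.range r)) ∧
    ∀ x ∈ Algebra.adjoin ℚ (Set.range r), x ∈ Submodule.span ℚ (Set.range r) := by
  have hA := CSA_span ℚ r h1 hm
  obtain ⟨hfd, hdim⟩ := CSA_dim r hm htr hsp
  have hmem : ∀ x, x ∈ Algebra.adjoin ℚ (Set.range r) ↔ x ∈ Submodule.span ℚ (Set.range r) := by
    intro x
    rw [← hA]
    rfl
  have hfd' : FiniteDimensional ℚ (Subalgebra.toSubmodule (Algebra.adjoin ℚ (Set.range r))) := by
    rw [hA]
    exact hfd
  have hdim' : finrank ℚ (Subalgebra.toSubmodule (Algebra.adjoin ℚ (Set.range r))) = n * n := by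
    rw [hA]
    exact hdim
  have hne : Nonempty (Fin n) := ⟨⟨0, hn⟩⟩
  have hnt : Nontrivial (Matrix (Fin n) (Fin n) F) := inferInstance
  refine ⟨hfd', hdim', ?_, ?_, fun x hx => (hmem x).1 hx⟩
  · rw [isSimpleRing_iff_isTwoSided_imp]
    refine ⟨inferInstance, fun I hI => ?_⟩
    by_cases hbot : I = ⊥
    · exact Or.inl hbot
    right
    obtain ⟨x, hxI, hx0⟩ := Submodule.exists_mem_ne_zero_of_ne_bot hbot
    -- the image of `I` in the matrices
    let J : Submodule ℚ (Matrix (Fin n) (Fin n) F) :=
      (I.restrictScalars ℚ).map (Algebra.adjoin ℚ (Set.range r)).val.toLinearMap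
    have hJmem : ∀ y, y ∈ J ↔ ∃ z ∈ I, (z : Matrix (Fin n) (Fin n) F) = y := by
      intro y
      constructor
      · rintro ⟨z, hz, rfl⟩
        exact ⟨z, hz, rfl⟩
      · rintro ⟨z, hz, rfl⟩
        exact ⟨z, hz, rfl⟩
    have hJle : J ≤ Submodule.span ℚ (Set.range r) := by
      intro y hy
      obtain ⟨z, _, rfl⟩ := (hJmem y).1 hy
      exact (hmem _).1 z.2
    have hrA : ∀ l, r l ∈ Algebra.adjoin ℚ (Set.range r) :=
      fun l => Algebra.subset_adjoin ⟨l, rfl⟩
    have hJl : ∀ l, ∀ y ∈ J, r l * y ∈ J := by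
      intro l y hy
      obtain ⟨z, hz, rfl⟩ := (hJmem y).1 hy
      exact (hJmem _).2 ⟨⟨r l, hrA l⟩ * z, I.mul_mem_left _ hz, rfl⟩
    have hJr : ∀ l, ∀ y ∈ J, y * r l ∈ J := by
      intro l y hy
      obtain ⟨z, hz, rfl⟩ := (hJmem y).1 hy
      exact (hJmem _).2 ⟨z * ⟨r l, hrA l⟩, I.mul_mem_right _ hz, rfl⟩
    -- the `F`-span is a two-sided ideal
    set K := Submodule.span F (J : Set (Matrix (Fin n) (Fin n) F)) with hK
    have hKl : ∀ (M : Matrix (Fin n) (Fin n) F), ∀ y ∈ K, M * y ∈ K := by
      intro M y hy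
      have hM : M ∈ Submodule.span F (Set.range r) := by
        rw [hsp]
        trivial
      induction hM using Submodule.span_induction with
      | mem M h =>
        obtain ⟨l, rfl⟩ := h
        induction hy using Submodule.span_induction with
        | mem y h => exact Submodule.subset_span (hJl l y h)
        | zero =>
          rw [mul_zero]
          exact K.zero_mem
        | add y z _ _ hy hz =>
          rw [mul_add]
          exact K.add_mem hy hz
        | smul c y _ hy =>
          rw [mul_smul_comm]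
          exact K.smul_mem c hy
      | zero =>
        rw [zero_mul]
        exact K.zero_mem
      | add M M' _ _ h h' =>
        rw [add_mul]
        exact K.add_mem h h'
      | smul c M _ h =>
        rw [smul_mul_assoc]
        exact K.smul_mem c h
    have hKr : ∀ (M : Matrix (Fin n) (Fin n) F), ∀ y ∈ K, y * M ∈ K := by
      intro M y hy
      have hM : M ∈ Submodule.span F (Set.range r) := by
        rw [hsp]
        trivial
      induction hM using Submodule.span_induction with
      | mem M h =>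
        obtain ⟨l, rfl⟩ := h
        induction hy using Submodule.span_induction with
        | mem y h => exact Submodule.subset_span (hJr l y h)
        | zero =>
          rw [zero_mul]
          exact K.zero_mem
        | add y z _ _ hy hz =>
          rw [add_mul]
          exact K.add_mem hy hz
        | smul c y _ hy =>
          rw [smul_mul_assoc]
          exact K.smul_mem c hy
      | zero =>
        rw [mul_zero]
        exact K.zero_mem
      | add M M' _ _ h h' =>
        rw [mul_add]
        exact K.add_mem h h'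
      | smul c M _ h =>
        rw [mul_smul_comm]
        exact K.smul_mem c h
    have hx0' : (x : Matrix (Fin n) (Fin n) F) ≠ 0 := fun h => hx0 (Subtype.ext h)
    obtain ⟨a, c, hac⟩ : ∃ a c, (x : Matrix (Fin n) (Fin n) F) a c ≠ 0 := by
      by_contra hcon
      push Not at hcon
      exact hx0' (Matrix.ext fun a c => by rw [hcon]; rfl)
    have hxK : (x : Matrix (Fin n) (Fin n) F) ∈ K :=
      Submodule.subset_span ((hJmem _).2 ⟨x, hxI, rfl⟩)
    have hKtop : K = ⊤ := by
      rw [eq_top_iff]
      intro M _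
      rw [Matrix.matrix_eq_sum_single M]
      refine K.sum_mem fun i _ => K.sum_mem fun j _ => ?_
      have h6 : Matrix.single i j (M i j) =
          (M i j * ((x : Matrix (Fin n) (Fin n) F) a c)⁻¹) •
            (Matrix.single i a (1 : F) * (x : Matrix (Fin n) (Fin n) F) * Matrix.single c j 1) := by
        rw [Matrix.single_mul_mul_single]
        rw [Matrix.smul_single]
        congr 1
        rw [smul_eq_mul, one_mul, mul_one]
        field_simp
      rw [h6]
      exact K.smul_mem _ (hKr _ _ (hKl _ _ hxK))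
    have hJeq := CSA_full r hm htr hsp J hJle hKtop
    rw [Ideal.eq_top_iff_one]
    have h7 : (1 : Matrix (Fin n) (Fin n) F) ∈ J := by
      rw [hJeq, ← h1]
      exact Submodule.subset_span ⟨1, rfl⟩
    obtain ⟨z, hz, hz1⟩ := (hJmem _).1 h7
    have h8 : z = 1 := Subtype.ext hz1
    rwa [h8] at hz
  · refine ⟨fun x hx => ?_⟩
    rw [Subalgebra.mem_center_iff] at hx
    have hcomm : ∀ M : Matrix (Fin n) (Fin n) F, M * (x : Matrix (Fin n) (Fin n) F) = x * M := by
      intro M
      have hM : M ∈ Submodule.span F (Set.range r) := by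
        rw [hsp]
        trivial
      induction hM using Submodule.span_induction with
      | mem M h =>
        obtain ⟨l, rfl⟩ := h
        exact congrArg Subtype.val (hx ⟨r l, Algebra.subset_adjoin ⟨l, rfl⟩⟩)
      | zero => rw [zero_mul, mul_zero]
      | add M M' _ _ h h' => rw [add_mul, mul_add, h, h']
      | smul c M _ h => rw [smul_mul_assoc, mul_smul_comm, h]
    have hcen : (x : Matrix (Fin n) (Fin n) F) ∈ Set.center (Matrix (Fin n) (Fin n) F) :=
      Semigroup.mem_center_iff.2 hcomm
    rw [Matrix.center_eq_scalar_image] at hcen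
    obtain ⟨c, -, hc⟩ := hcen
    obtain ⟨t, ht⟩ := CSA_tr r hm htr (R := ℚ) x.1 ((hmem _).1 x.2) 1
    rw [h1, mul_one] at ht
    have h9 : (n : F) * c = algebraMap ℚ F t := by
      rw [← ht, ← hc, Matrix.scalar_apply, Matrix.trace_diagonal]
      simp
    have hn0 : (n : ℚ) ≠ 0 := by
      have : n ≠ 0 := by omega
      exact_mod_cast this
    have hn0' : (n : F) ≠ 0 := by
      have : algebraMap ℚ F (n : ℚ) ≠ 0 := (map_ne_zero _).2 hn0
      rwa [map_natCast] at this
    have h10 : c = algebraMap ℚ F (t / n) := by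
      rw [map_div₀, map_natCast, ← h9]
      field_simp
    rw [Algebra.mem_bot]
    refine ⟨t / n, ?_⟩
    apply Subtype.ext
    rw [← hc, h10]
    ext i j
    show (algebraMap ℚ (Matrix (Fin n) (Fin n) F) (t / n)) i j = _
    rw [Matrix.scalar_apply, Matrix.algebraMap_matrix_apply, Matrix.diagonal_apply]

end rat

section int

variable {n : ℕ} {F : Type} [Field F] {Λ : Type} [Group Λ]
  (r : Λ → Matrix (Fin n) (Fin n) F)

theorem CSA_int (h1 : r 1 = 1) (hm : ∀ l m, r (l * m) = r l * r m)
    (htr : ∀ l, ∃ t : ℤ, (r l).trace = (t : F))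
    (hsp : Submodule.span F (Set.range r) = ⊤) (l₀ : Λ) : IsIntegral ℤ (r l₀) := by
  obtain ⟨l, hli, hls⟩ := CSA_basis r hsp
  refine IsIntegral.of_mem_of_fg (Algebra.adjoin ℤ (Set.range r)) ?_ (r l₀)
    (Algebra.subset_adjoin ⟨l₀, rfl⟩)
  rw [CSA_span ℤ r h1 hm]
  set N := Submodule.span ℤ (Set.range r) with hN
  let b : Fin (n * n) → Matrix (Fin n) (Fin n) F := fun i => r (l i)
  let ψ : N →ₗ[ℤ] (Fin (n * n) → F) := ((CSA_phi b).restrictScalars ℤ).comp N.subtype
  let ι : (Fin (n * n) → ℤ) →ₗ[ℤ] (Fin (n * n) → F) :=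
    (Algebra.linearMap ℤ F).compLeft (Fin (n * n))
  have hψ : ∀ x : N, ψ x ∈ LinearMap.range ι := by
    intro x
    have h1 : ∀ i, ∃ t : ℤ, (x.1 * r (l i)).trace = algebraMap ℤ F t :=
      fun i => CSA_tr r hm htr x.1 x.2 (l i)
    choose t ht using h1
    refine ⟨t, ?_⟩
    ext i
    exact (ht i).symm
  let ψ' : N →ₗ[ℤ] LinearMap.range ι := ψ.codRestrict _ hψ
  have hinj : Function.Injective ψ' := by
    intro x y hxy
    have h2 : ψ x = ψ y := congrArg Subtype.val hxy
    exact Subtype.ext (CSA_phi_inj b hls h2)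
  have hnoe : IsNoetherian ℤ (LinearMap.range ι) := inferInstance
  have hnoeN : IsNoetherian ℤ N := isNoetherian_of_injective ψ' hinj
  exact (Submodule.fg_top N).1 (hnoeN.noetherian ⊤)

end int

theorem CSA (hSPAN : LSPAN_stmt) (hINT : LINT_stmt) : CSA_stmt := by
  intro n hn Λ _ hFG hQ f hinf p
  let r : Λ → Matrix (Fin n) (Fin n) ℚ_[(p : ℕ)] := fun l => qM (f p l)
  have h1 : r 1 = 1 := by
    show qM (f p 1) = 1
    rw [map_one]
    show ((1 : GL (Fin n) ℤ_[(p : ℕ)]) : Matrix (Fin n) (Fin n) ℤ_[(p : ℕ)]).map _ = 1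
    rw [Units.val_one]
    exact Matrix.map_one _ (map_zero _) (map_one _)
  have hm : ∀ l m, r (l * m) = r l * r m := by
    intro l m
    show qM (f p (l * m)) = qM (f p l) * qM (f p m)
    rw [map_mul]
    show ((f p l * f p m : GL (Fin n) ℤ_[(p : ℕ)]) : Matrix (Fin n) (Fin n) ℤ_[(p : ℕ)]).map _ = _
    rw [Units.val_mul, Matrix.map_mul]
    rfl
  have htr : ∀ l, ∃ t : ℤ, (r l).trace = (t : ℚ_[(p : ℕ)]) := by
    intro l
    obtain ⟨t, ht⟩ := hINT n hn Λ hFG hQ f hinf p l
    refine ⟨t, ?_⟩
    show (qM (f p l)).trace = _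
    have h2 : (qM (f p l)).trace = PadicInt.Coe.ringHom (p := (p : ℕ))
        (f p l : Matrix (Fin n) (Fin n) ℤ_[(p : ℕ)]).trace := by
      rw [qM, Matrix.trace, Matrix.trace, map_sum]
      rfl
    rw [h2, ht, map_intCast]
  have hsp : Submodule.span ℚ_[(p : ℕ)] (Set.range r) = ⊤ := hSPAN n hn Λ hQ f hinf p
  obtain ⟨c1, c2, c3, c4, c5⟩ := CSA_core r (by omega) h1 hm htr hsp
  refine ⟨c1, c2, c3, c4, fun l => ?_, c5⟩
  have h3 : IsIntegral ℤ (r l) := CSA_int r h1 hm htr hsp l
  have h4 : Function.Injective ((AL f p).val : AL f p →+* Matrix (Fin n) (Fin n) ℚ_[(p : ℕ)]) :=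
    Subtype.val_injective
  exact (isIntegral_algHom_iff
    ((AL f p).val : AL f p →+* Matrix (Fin n) (Fin n) ℚ_[(p : ℕ)]).toIntAlgHom h4).1 h3

end Pool.Agent.SHL
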